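import Pool.Agent.U552.CN.Res

/-!
# MP_8efaaa_nt: congruent numbers with prescribed fractional parts, and in Beatty sequences

Squarefree congruent numbers of the classes `5, 6, 7` modulo `8` with prescribed fractional parts of real polynomials,
in short intervals and in all residue classes; simultaneous Beatty sequences.

**Theorem.** (1) Let `P_1, …, P_m` be real polynomials such that no nontrivial integral combination has only rational
coefficients in positive degrees, and let `a_i < b_i` be real numbers. Let `M ≥ 1`, and let `n₀` be squarefree and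
congruent to `5`, `6` or `7` modulo `8`. There are `c > 0`, `D` and `X₀` such that for all real `X ≥ X₀` at least `c X ^ (1/6)` integers `n` in
`[X, X + D X ^ (5/6)]` are squarefree congruent numbers of this kind, with `n ≡ n₀` modulo `M`, for which all `P_i(n)` lie
between `a_i` and `b_i` modulo one.

(2) Let `α_i > 0` be real numbers such that `1, 1 / α_1, …, 1 / α_m` are linearly independent over the rational numbers
(for `m = 1`: `α_1` is irrational), `β_i` any real numbers. Then at least `c X ^ (1/6)` such numbers in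
`[X, X + D X ^ (5/6)]` belong to all the Beatty sequences `⌊α_i k + β_i⌋`, `k ∈ ℤ`.

The starting results `AlmostPrimeIntervals`, `EveryDivisor`, `LeastInProgressions` have congruent numbers of these classes
in short intervals, in residue classes and with prescribed divisors, without any condition on fractional parts.

Proof. The numbers are `n(u) = u (4 M² u - 1) (4 M² u + 1)`, which are areas of rational right triangles and congruent to
`-u` modulo `8 M`; `u` runs over a progression to a modulus `W` in which no square of a prime up to `k` divides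
`n(u)`. By Weyl's theorem for the polynomials `P_i(n(u))`, uniformly in the starting point of the window, the proportion of
the `u` with the fractional parts in question is bounded below by a number which does not depend on `k`; the proportion of
those `u` for which the square of a prime `p > k` divides `n(u)` is at most `3 / k`, if the window has `L √u` members. The
library `Pool.Agent.U552.CN` uses the inverse theorem for Weyl sums of the starting library (`H373R2.NB.IW_all`,
and `R509.PP` of helper509).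
-/

set_option autoImplicit false

namespace Pool.Agent.Results.MP_8efaaa_nt.FractionalParts

open Polynomial
open Pool.Agent.U552.CN (nn nn_congruent nn_congruent' box_count bp bp_indep bp_floor)

/-- `n` is a congruent number: `x² + n y² = z²`, `x² - n y² = t²` is solvable in positive integers. -/
def IsCongruent (n : ℕ) : Prop :=
  ∃ x y z t : ℕ, 0 < x ∧ 0 < y ∧ 0 < z ∧ 0 < t ∧ (x : ℤ) ^ 2 + n * (y : ℤ) ^ 2 = (z : ℤ) ^ 2 ∧
    (x : ℤ) ^ 2 - n * (y : ℤ) ^ 2 = (t : ℤ) ^ 2

/-- No nontrivial integral combination of the polynomials has only rational coefficients in positive degrees. -/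
def Independent {m : ℕ} (P : Fin m → ℝ[X]) : Prop :=
  ∀ h : Fin m → ℤ, h ≠ 0 → ∃ j : ℕ, 1 ≤ j ∧ Irrational (∑ i, (h i : ℝ) * (P i).coeff j)

/-- Modulo one the values `P i n` lie between `a i` and `b i`. -/
def InBox {m : ℕ} (P : Fin m → ℝ[X]) (a b : Fin m → ℝ) (n : ℕ) : Prop :=
  ∀ i, ∃ k : ℤ, a i < (P i).eval (n : ℝ) + k ∧ (P i).eval (n : ℝ) + k < b i

/-- `n` belongs to all the Beatty sequences `⌊α i k + β i⌋`. -/
def InBeatty {m : ℕ} (α β : Fin m → ℝ) (n : ℕ) : Prop :=
  ∀ i, ∃ k : ℤ, (n : ℤ) = ⌊α i * k + β i⌋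

theorem congr {M u : ℕ} (hM : 1 ≤ M) (hu : 1 ≤ u) : IsCongruent (nn M u) := by
  obtain ⟨x, y, z, t, hx, hy, hz, ht, h1, h2⟩ := nn_congruent' hM hu
  exact ⟨x, y, z, t, hx, hy, hz, ht, by exact_mod_cast h1, h2⟩

theorem cls {M n n₀ : ℕ} (h : n ≡ n₀ [MOD 8 * M]) (h0 : n₀ % 8 = 5 ∨ n₀ % 8 = 6 ∨ n₀ % 8 = 7) :
    n % 8 = 5 ∨ n % 8 = 6 ∨ n % 8 = 7 := by
  have h1 : n % 8 = n₀ % 8 := h.of_mul_right M
  rwa [h1]

/-- **Congruent numbers with prescribed fractional parts, and in Beatty sequences.** -/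
theorem result :
    (∀ (m : ℕ) (P : Fin m → ℝ[X]), Independent P → ∀ a b : Fin m → ℝ, (∀ i, a i < b i) →
      ∀ M n₀ : ℕ, 1 ≤ M → Squarefree n₀ → (n₀ % 8 = 5 ∨ n₀ % 8 = 6 ∨ n₀ % 8 = 7) →
        ∃ c D X₀ : ℝ, 0 < c ∧ ∀ X : ℝ, X₀ ≤ X → c * X ^ (1 / 6 : ℝ) ≤
          (({n : ℕ | X ≤ n ∧ (n : ℝ) ≤ X + D * X ^ (5 / 6 : ℝ) ∧ Squarefree n ∧ IsCongruent n ∧ (n % 8 = 5 ∨ n % 8 = 6 ∨ n % 8 = 7) ∧
            n ≡ n₀ [MOD M] ∧ InBox P a b n}.ncard : ℕ) : ℝ)) ∧
    ∀ (m : ℕ) (α β : Fin m → ℝ), (∀ i, 0 < α i) → (∀ k : Fin m → ℤ, k ≠ 0 → Irrational (∑ i, (k i : ℝ) / α i)) →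
      ∀ M n₀ : ℕ, 1 ≤ M → Squarefree n₀ → (n₀ % 8 = 5 ∨ n₀ % 8 = 6 ∨ n₀ % 8 = 7) →
        ∃ c D X₀ : ℝ, 0 < c ∧ ∀ X : ℝ, X₀ ≤ X → c * X ^ (1 / 6 : ℝ) ≤
          (({n : ℕ | X ≤ n ∧ (n : ℝ) ≤ X + D * X ^ (5 / 6 : ℝ) ∧ Squarefree n ∧ IsCongruent n ∧ (n % 8 = 5 ∨ n % 8 = 6 ∨ n % 8 = 7) ∧
            n ≡ n₀ [MOD M] ∧ InBeatty α β n}.ncard : ℕ) : ℝ) := by
  refine ⟨fun m P hP a b hab M n₀ hM hn hc => ?_, fun m α β hα hirr M n₀ hM hn hc => ?_⟩
  · obtain ⟨c, D, X₀, hc0, h⟩ := box_count P hP a b hab M n₀ hM hn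
    exact ⟨c, D, X₀, hc0, fun X hX => h X hX _ fun u hu hsf hmod hbox =>
      ⟨hsf, congr hM hu, cls hmod hc, hmod.of_mul_left 8, hbox⟩⟩
  · obtain ⟨c, D, X₀, hc0, h⟩ := box_count (bp α β) (bp_indep hirr) (fun _ => 0) (fun i => (α i)⁻¹)
      (fun i => inv_pos.2 (hα i)) M n₀ hM hn
    exact ⟨c, D, X₀, hc0, fun X hX => h X hX _ fun u hu hsf hmod hbox =>
      ⟨hsf, congr hM hu, cls hmod hc, hmod.of_mul_left 8, bp_floor hα hbox⟩⟩

end Pool.Agent.Results.MP_8efaaa_nt.FractionalParts
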