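import Pool.Agent.U334.CC.Final
import Pool.Agent.U334.CC.Short3

/-!
# One pattern of `K` squarefree congruent numbers in all short intervals, classes `5`, `6`, `7` modulo `8`

Let `r` be `5`, `6` or `7` and let `a` modulo `M` be a class which contains a squarefree number `k ≡ r`
modulo `8` (`a` and `M` need not be coprime). For every `K` there is ONE set `H` of `K` natural numbers
such that EVERY interval `[X, X + D X ^ (11/12)]`, `X ≥ X₀`, contains at least `X ^ (1/6) / 4` integers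
`n` for which all the `n + h`, `h ∈ H`, are squarefree congruent numbers `≡ r` modulo `8` and `≡ a`
modulo `M`.

Proof. For squarefree `b` and all `x`, `y` the number `b (x ^ 4 - b ^ 2 y ^ 4)` is congruent: it is
`p q (p ^ 2 - q ^ 2) / (x y) ^ 2` for `p = x ^ 2`, `q = b y ^ 2`. For fixed `b` and `x` and
`y = Q, 2 Q, …, K Q` we get a translate of a fixed set; if `x ≡ 1` modulo `Q`, `8 M ∣ Q`, the numbers
are `≡ b` modulo `8 M`. They are squarefree if the values of the `2 K` polynomials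
`x ^ 2 ± b Q ^ 2 w ^ 2` are squarefree. Let `x = 1 + Q t`, where `t` runs through an interval of length
`N = A T ^ (2/3)` near `T`. For the primes `p ≤ T ^ (2/3)` we count trivially. For the larger
primes, `x ^ 2 + c = m p ^ 2` with `m = O(T ^ (2/3))`, and for every `m` there is at most one `t`:
two solutions `(x₁, p₁)`, `(x₂, p₂)` with the same `m` satisfy
`(x₁ p₂ - x₂ p₁) (x₁ p₂ + x₂ p₁) = - c (p₂ ^ 2 - p₁ ^ 2)`, so that `x₁ ≤ |c| (p₂ - p₁)`
and `x₁ ≤ 2 |c| (x₂ - x₁)`.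
-/

set_option autoImplicit false

namespace Pool.Agent.Results.MP_8efaaa_nt.PatternsInShortIntervals

/-- `X² + n Y² = Z²`, `X² - n Y² = T²` has a solution in positive integers -/
def Congruent (n : ℕ) : Prop :=
  ∃ X Y Z T : ℕ, 0 < X ∧ 0 < Y ∧ 0 < Z ∧ 0 < T ∧ X ^ 2 + n * Y ^ 2 = Z ^ 2 ∧
    X ^ 2 = n * Y ^ 2 + T ^ 2

/-- **One pattern of squarefree congruent numbers in all short intervals.** Let `r ∈ {5, 6, 7}` and let the
class of `a` modulo `M` contain a squarefree number which is `≡ r` modulo `8`. For every `K ≥ 1` there are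
a set `H` of `K` natural numbers and `D`, `X₀` such that for all real `X ≥ X₀` at least `X ^ (1/6) / 4`
integers `n` of the interval `[X, X + D X ^ (11/12)]` are such that every `n + h`, `h ∈ H`, is a
squarefree congruent number, `≡ r` modulo `8` and `≡ a` modulo `M`. -/
theorem result (M a r : ℕ) (hM : 1 ≤ M) (_hr : r = 5 ∨ r = 6 ∨ r = 7)
    (hka : ∃ k : ℕ, Squarefree k ∧ k % 8 = r ∧ k ≡ a [MOD M]) (K : ℕ) (hK : 1 ≤ K) :
    ∃ H : Finset ℕ, H.card = K ∧ ∃ D X₀ : ℝ, ∀ X : ℝ, X₀ ≤ X →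
      1 / 4 * X ^ (1 / 6 : ℝ) ≤ ({n : ℕ | X ≤ (n : ℝ) ∧ (n : ℝ) ≤ X + D * X ^ (11 / 12 : ℝ) ∧
        ∀ h ∈ H, Squarefree (n + h) ∧ (n + h) % 8 = r ∧ n + h ≡ a [MOD M] ∧
          Congruent (n + h)}.ncard : ℝ) := by
  obtain ⟨k, hk, hkr, hka⟩ := hka
  obtain ⟨H, hH, D, X₀, h⟩ := Pool.Agent.U334.CC.patternS hk (show 1 ≤ 8 * M by omega) Congruent
    (fun n b x y hn hb hx hy h => Pool.Agent.U334.CC.squares hn hb hx hy h) K hK
  refine ⟨H, hH, D, X₀, fun X hX => (h X hX).trans ?_⟩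
  have hfin : {n : ℕ | X ≤ (n : ℝ) ∧ (n : ℝ) ≤ X + D * X ^ (11 / 12 : ℝ) ∧
        ∀ h ∈ H, Squarefree (n + h) ∧ (n + h) % 8 = r ∧ n + h ≡ a [MOD M] ∧
          Congruent (n + h)}.Finite := by
    apply (Set.finite_Iic ⌊X + D * X ^ (11 / 12 : ℝ)⌋₊).subset
    intro Z hZ
    exact Nat.le_floor hZ.2.1
  have hsub : {n : ℕ | X ≤ (n : ℝ) ∧ (n : ℝ) ≤ X + D * X ^ (11 / 12 : ℝ) ∧
        ∀ h ∈ H, Squarefree (n + h) ∧ n + h ≡ k [MOD 8 * M] ∧ Congruent (n + h)} ⊆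
      {n : ℕ | X ≤ (n : ℝ) ∧ (n : ℝ) ≤ X + D * X ^ (11 / 12 : ℝ) ∧
        ∀ h ∈ H, Squarefree (n + h) ∧ (n + h) % 8 = r ∧ n + h ≡ a [MOD M] ∧
          Congruent (n + h)} := by
    rintro n ⟨h0, h1, h2⟩
    refine ⟨h0, h1, fun h hh => ?_⟩
    obtain ⟨g3, g4, g5⟩ := h2 h hh
    have g6 : (n + h) % 8 = k % 8 := g4.of_dvd (Dvd.intro _ rfl)
    exact ⟨g3, by omega, (g4.of_dvd (Dvd.intro_left 8 rfl)).trans hka, g5⟩
  exact_mod_cast Set.ncard_le_ncard hsub hfin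

end Pool.Agent.Results.MP_8efaaa_nt.PatternsInShortIntervals
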