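import Pool.Agent.U828.CN.Res

/-!
# MP_8efaaa_nt: congruent numbers and real powers

Squarefree congruent numbers of the classes `5, 6, 7` modulo `8` with prescribed fractional parts of real powers, in
short intervals and in all residue classes; prescribed residues of the integer parts of real powers.

**Theorem.** Let `θ_1, …, θ_m` be distinct real numbers larger than `1/3` for which `3 θ_i` is not an integer. Let
`M ≥ 1`, and let `n₀` be squarefree and congruent to `5`, `6` or `7` modulo `8`.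

(1) Let `c_i ≠ 0` and `a_i < b_i` be real numbers. There are `δ > 0`, `D` and `X₀` such that for all real `X ≥ X₀` at
least `δ X ^ (1/6)` integers `n` in `[X, X + D X ^ (5/6)]` are squarefree congruent numbers of the classes `5, 6, 7`, with
`n ≡ n₀` modulo `M`, for which all `c_i n ^ θ_i` lie between `a_i` and `b_i` modulo one.

(2) Let `q_i ≥ 1` and `r_i` be integers. The same holds for the `n` with `⌊n ^ θ_i⌋ ≡ r_i` modulo `q_i` for all `i`.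

The nearest result is `FractionalParts` (helper552) on real polynomials in place of real powers; its family
`n(u) = u (4 M² u - 1) (4 M² u + 1)` and its sieve for squarefree values are used. Weyl's method for polynomials is replaced
by the derivative test `U828.KD.test`: in a window of `L √u` members the differences of order `d > 3 θ` of
`∑ h_i c_i n(u) ^ θ_i` are of exact order `u ^ (3 θ - d)`, `θ` the largest exponent with `h_i ≠ 0`, and `d < 6 θ`, so that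
the sums are small uniformly in the window.
-/

set_option autoImplicit false

namespace Pool.Agent.Results.MP_8efaaa_nt.RealPowers

open Pool.Agent.U552.CN (nn nn_congruent')
open Pool.Agent.U828.CN (pbox_count floor_mod)

/-- `n` is a congruent number: `x² + n y² = z²`, `x² - n y² = t²` is solvable in positive integers. -/
def IsCongruent (n : ℕ) : Prop :=
  ∃ x y z t : ℕ, 0 < x ∧ 0 < y ∧ 0 < z ∧ 0 < t ∧ (x : ℤ) ^ 2 + n * (y : ℤ) ^ 2 = (z : ℤ) ^ 2 ∧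
    (x : ℤ) ^ 2 - n * (y : ℤ) ^ 2 = (t : ℤ) ^ 2

/-- Modulo one the values `c i * n ^ θ i` lie between `a i` and `b i`. -/
def InBox {m : ℕ} (c θ a b : Fin m → ℝ) (n : ℕ) : Prop :=
  ∀ i, ∃ k : ℤ, a i < c i * (n : ℝ) ^ θ i + k ∧ c i * (n : ℝ) ^ θ i + k < b i

theorem congr {M u : ℕ} (hM : 1 ≤ M) (hu : 1 ≤ u) : IsCongruent (nn M u) := by
  obtain ⟨x, y, z, t, hx, hy, hz, ht, h1, h2⟩ := nn_congruent' hM hu
  exact ⟨x, y, z, t, hx, hy, hz, ht, by exact_mod_cast h1, h2⟩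

theorem cls {M n n₀ : ℕ} (h : n ≡ n₀ [MOD 8 * M]) (h0 : n₀ % 8 = 5 ∨ n₀ % 8 = 6 ∨ n₀ % 8 = 7) :
    n % 8 = 5 ∨ n % 8 = 6 ∨ n % 8 = 7 := by
  have h1 : n % 8 = n₀ % 8 := h.of_mul_right M
  rwa [h1]

/-- **Congruent numbers and real powers.** -/
theorem result (m : ℕ) (θ : Fin m → ℝ) (hθ : Function.Injective θ) (hθ1 : ∀ i, 1 / 3 < θ i)
    (hθ2 : ∀ i, ∀ k : ℕ, 3 * θ i ≠ k) (M n₀ : ℕ) (hM : 1 ≤ M) (hn : Squarefree n₀)
    (hc : n₀ % 8 = 5 ∨ n₀ % 8 = 6 ∨ n₀ % 8 = 7) :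
    (∀ c a b : Fin m → ℝ, (∀ i, c i ≠ 0) → (∀ i, a i < b i) →
      ∃ δ D X₀ : ℝ, 0 < δ ∧ ∀ X : ℝ, X₀ ≤ X → δ * X ^ (1 / 6 : ℝ) ≤
        (({n : ℕ | X ≤ n ∧ (n : ℝ) ≤ X + D * X ^ (5 / 6 : ℝ) ∧ Squarefree n ∧ IsCongruent n ∧
          (n % 8 = 5 ∨ n % 8 = 6 ∨ n % 8 = 7) ∧ n ≡ n₀ [MOD M] ∧ InBox c θ a b n}.ncard : ℕ) : ℝ)) ∧
    ∀ (q : Fin m → ℕ) (r : Fin m → ℤ), (∀ i, 1 ≤ q i) →
      ∃ δ D X₀ : ℝ, 0 < δ ∧ ∀ X : ℝ, X₀ ≤ X → δ * X ^ (1 / 6 : ℝ) ≤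
        (({n : ℕ | X ≤ n ∧ (n : ℝ) ≤ X + D * X ^ (5 / 6 : ℝ) ∧ Squarefree n ∧ IsCongruent n ∧
          (n % 8 = 5 ∨ n % 8 = 6 ∨ n % 8 = 7) ∧ n ≡ n₀ [MOD M] ∧
          ∀ i, ⌊(n : ℝ) ^ θ i⌋ ≡ r i [ZMOD q i]}.ncard : ℕ) : ℝ) := by
  refine ⟨fun c a b hc0 hab => ?_, fun q r hq => ?_⟩
  · obtain ⟨δ, D, X₀, hδ, h⟩ := pbox_count c θ hc0 hθ hθ1 hθ2 a b hab M n₀ hM hn
    exact ⟨δ, D, X₀, hδ, fun X hX => h X hX _ fun u hu hsf hmod hbox =>
      ⟨hsf, congr hM hu, cls hmod hc, hmod.of_mul_left 8, hbox⟩⟩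
  · have hq0 : ∀ i, (0 : ℝ) < q i := fun i => by exact_mod_cast hq i
    obtain ⟨δ, D, X₀, hδ, h⟩ := pbox_count (fun i => ((q i : ℕ) : ℝ)⁻¹) θ (fun i => (inv_pos.2 (hq0 i)).ne') hθ hθ1 hθ2
      (fun i => (r i : ℝ) / q i) (fun i => ((r i : ℝ) + 1) / q i)
      (fun i => div_lt_div_of_pos_right (by linarith) (hq0 i)) M n₀ hM hn
    refine ⟨δ, D, X₀, hδ, fun X hX => h X hX _ fun u hu hsf hmod hbox =>
      ⟨hsf, congr hM hu, cls hmod hc, hmod.of_mul_left 8, fun i => ?_⟩⟩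
    obtain ⟨k, h1, h2⟩ := hbox i
    exact floor_mod (hq i) h1 h2

end Pool.Agent.Results.MP_8efaaa_nt.RealPowers
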